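import Pool.Agent.H90.CB.Main

/-!
Vertices of full degree of the trees that span the hypercube, and the caterpillars that have as many of them as
possible when the dimension is a power of two.
-/

set_option autoImplicit false

namespace Pool.Agent.Results.MP_582f2d_co.FullDegree

/-- The `n`-dimensional hypercube: the vertices are the binary `n`-tuples, two of them are adjacent
if they differ in exactly one coordinate. -/
def cube (n : ℕ) : SimpleGraph (Fin n → Bool) where
  Adj x y := ∃! i, x i ≠ y i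
  symm := ⟨by
    rintro x y ⟨i, h1, h2⟩
    exact ⟨i, h1.symm, fun j hj => h2 j hj.symm⟩⟩
  loopless := ⟨by
    rintro x ⟨i, h1, _⟩
    exact h1 rfl⟩

/-- The degree of a vertex. -/
noncomputable def deg {V : Type} (T : SimpleGraph V) (v : V) : ℕ := (T.neighborSet v).ncard

/-- `T` is a tree that spans the `n`-dimensional hypercube: it is isomorphic to a spanning tree. -/
def Spans {V : Type} (T : SimpleGraph V) (n : ℕ) : Prop :=
  ∃ T' : SimpleGraph (Fin n → Bool), T' ≤ cube n ∧ T'.IsTree ∧ Nonempty (T ≃g T')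

/-- A caterpillar: a tree in which deleting all leaves leaves a path (the spine). -/
def IsCaterpillar {V : Type} (T : SimpleGraph V) : Prop :=
  T.IsTree ∧ ∃ m : ℕ, Nonempty (T.induce {v | deg T v ≠ 1} ≃g SimpleGraph.pathGraph m)

/-- The vertices of `T` that are not leaves form a path with `m` vertices, and along this path
their degrees in `T` are `n, n, 2, 2, n, n, 2, 2, ...`. -/
def SpineDegrees {V : Type} (T : SimpleGraph V) (n m : ℕ) : Prop :=
  ∃ ι : T.induce {v | deg T v ≠ 1} ≃g SimpleGraph.pathGraph m,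
    ∀ i : Fin m, deg T (ι.symm i).1 = if (i : ℕ) % 4 < 2 then n else 2

/-- **Vertices of full degree.** (1) A tree that spans the `n`-cube has at most `2 ^ n / n` vertices
of degree `n`. (2) If `n = 2 ^ r ≥ 4`, a caterpillar with at least `2 ^ n / n` vertices of degree `n`
spans the `n`-cube if and only if its spine has `2 ^ (n - r + 1) - 2` vertices, of degrees
`n, n, 2, 2, n, n, ..., 2, 2, n, n`. (3) There is such a caterpillar: it spans the `n`-cube, its
vertex degrees are `1, 2, n`, and it has exactly `2 ^ n / n` vertices of degree `n`. -/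
theorem result :
    (∀ (n : ℕ) (V : Type) (T : SimpleGraph V), Spans T n → n * {v | deg T v = n}.ncard ≤ 2 ^ n) ∧
    (∀ r : ℕ, 2 ≤ r → ∀ (V : Type) (T : SimpleGraph V), IsCaterpillar T →
      2 ^ 2 ^ r ≤ 2 ^ r * {v | deg T v = 2 ^ r}.ncard →
        (Spans T (2 ^ r) ↔ SpineDegrees T (2 ^ r) (2 ^ (2 ^ r - r + 1) - 2))) ∧
    (∀ r : ℕ, 2 ≤ r → ∃ (V : Type) (T : SimpleGraph V), IsCaterpillar T ∧ Spans T (2 ^ r) ∧
      Set.range (deg T) = {1, 2, 2 ^ r} ∧ 2 ^ r * {v | deg T v = 2 ^ r}.ncard = 2 ^ 2 ^ r) := by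
  have hsp : ∀ (n : ℕ) (V : Type) (T : SimpleGraph V), Spans T n ↔ Pool.Agent.H90.CB.Sp T n :=
    fun n V T => Iff.rfl
  refine ⟨fun n V T h => Pool.Agent.H90.CB.bound n V T ((hsp n V T).1 h), fun r hr V T hT hc => ?_,
    fun r hr => ?_⟩
  · rw [hsp]
    exact Pool.Agent.H90.CB.char r hr V T hT.1 hT.2 hc
  · obtain ⟨T, hQ, hT, hm, hd, hc⟩ := Pool.Agent.H90.CB.main_b r hr
    exact ⟨_, T, ⟨hT, hm⟩, ⟨T, fun x y h => hQ x y h, hT, ⟨SimpleGraph.Iso.refl⟩⟩, hd, hc⟩

end Pool.Agent.Results.MP_582f2d_co.FullDegree
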